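import Pool.Agent.Run7.h520.LW.I2

/-!
# Piece KZ: the glued structure is in the class
-/

set_option autoImplicit false
set_option linter.all false

namespace Run7.h209.LW
open Classical Run7.h520.LW

theorem exists_level (n : ℕ) : ∃ j, n < g j ∧ (j = 0 ∨ g (j - 1) ≤ n) := by
  have hex : ∃ j, n < g j := ⟨_, g_lt _⟩
  refine ⟨Nat.find hex, Nat.find_spec hex, ?_⟩
  rcases Nat.eq_zero_or_pos (Nat.find hex) with h0 | h0
  · exact Or.inl h0
  · right
    have := Nat.find_min hex (m := Nat.find hex - 1) (by omega)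
    omega

theorem inter_ssub {X Y : Finset ℕ} (h : ¬ X ⊆ Y) : X ∩ Y ⊂ X :=
  ⟨Finset.inter_subset_left, fun hc => h fun x hx => (Finset.mem_inter.1 (hc hx)).2⟩

section
variable {M : Str ℕ} {Ω : Set ℕ} {b0 h : ℕ} {T U Q B A P W D : Finset ℕ}
  {σ : ℕ → ℕ → ℕ} {τ : ℕ → ℕ} {lp : ℕ → ℕ × List ℕ}

theorem Q_sub_P (hc : Cfg M Ω b0 h T U Q B A P W D σ τ lp) : Q ⊆ P := by
  rw [← hc.UP]; exact Finset.inter_subset_right

theorem tau_inj (hc : Cfg M Ω b0 h T U Q B A P W D σ τ lp) {x y : ℕ} (hx : x ∈ P) (hy : y ∈ P)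
    (he : τ x = τ y) : x = y := by
  obtain ⟨t, ht⟩ := hc.ne
  apply (hc.emb t ht).inj x (hc.PW hx) y (hc.PW hy)
  rw [hc.σP t ht x hx, hc.σP t ht y hy, he]

theorem card_le (hc : Cfg M Ω b0 h T U Q B A P W D σ τ lp) {XD XU : Finset ℕ}
    (hF : Fit M Ω U Q D τ XD XU) : (XU ∩ Q).card ≤ (XD ∩ P).card := by
  apply Finset.card_le_card_of_injOn τ
  · intro x hx
    have hx' := Finset.mem_inter.1 (Finset.mem_coe.1 hx)
    have h1 := (hF.fit x hx'.2).1 hx'.1
    have h2 : τ x ∈ P := by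
      rw [← hc.τP]
      exact Finset.mem_image_of_mem _ (Q_sub_P hc hx'.2)
    exact Finset.mem_coe.2 (Finset.mem_inter.2 ⟨h1, h2⟩)
  · intro x hx y hy he
    have hx' := Finset.mem_inter.1 (Finset.mem_coe.1 hx)
    have hy' := Finset.mem_inter.1 (Finset.mem_coe.1 hy)
    exact tau_inj hc (Q_sub_P hc hx'.2) (Q_sub_P hc hy'.2) he

theorem c2_aux (hC : S_CALC) (hα : S_ALPHA) (hβ : S_BETA)
    (hc : Cfg M Ω b0 h T U Q B A P W D σ τ lp) {XD XU : Finset ℕ}
    (hF : Fit M Ω U Q D τ XD XU) (n : ℕ) (hn : n + (XU ∩ Q).card = XD.card + XU.card) :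
    f n ≤ M.dl XD + M.dl XU - M.dl (XU ∩ Q) - cost M T U B A σ lp XD XU := by
  obtain ⟨a1, a2, a3⟩ := hα hc XD XU hF
  rcases le_or_gt XU.card XD.card with hle | hlt
  · have h1 := hc.rich.k.c2 XD hF.pD
    obtain ⟨y, hy⟩ : ∃ y, XU.card = (XU ∩ Q).card + y :=
      ⟨XU.card - (XU ∩ Q).card, by
        have := Finset.card_le_card (Finset.inter_subset_left (s₁ := XU) (s₂ := Q))
        omega⟩
    have hny : n = XD.card + y := by omega
    by_cases hs : XU ⊆ Q
    · have e : XU ∩ Q = XU := Finset.inter_eq_left.2 hs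
      rw [e] at hy
      have hy0 : y = 0 := by omega
      rw [hny, hy0, Nat.add_zero]
      linarith
    · have h2 := a3 hs
      obtain ⟨j, hj, hjm⟩ := exists_level XU.card
      have h3 := f_step j XD.card y XU.card (by omega) hle hjm
      have h4 := hC.up M j _ _ (inter_ssub hs) hj h2
      have hq := q_pos j
      rw [hny]
      linarith
  · have h0 := card_le hc hF
    obtain ⟨x, hx⟩ : ∃ x, x + (XU ∩ Q).card = XU.card + (XD ∩ P).card :=
      ⟨XU.card + (XD ∩ P).card - (XU ∩ Q).card, by omega⟩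
    obtain ⟨b1, b2, b3⟩ := hβ hc XD XU hF x hx
    obtain ⟨y, hy⟩ : ∃ y, XD.card = (XD ∩ P).card + y :=
      ⟨XD.card - (XD ∩ P).card, by
        have := Finset.card_le_card (Finset.inter_subset_left (s₁ := XD) (s₂ := P))
        omega⟩
    have hny : n = x + y := by omega
    by_cases hs : XD ⊆ P
    · have e : XD ∩ P = XD := Finset.inter_eq_left.2 hs
      rw [e] at hy
      have hy0 : y = 0 := by omega
      rw [hny, hy0, Nat.add_zero]
      linarith
    · have h2 := b3 hs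
      obtain ⟨j, hj, hjm⟩ := exists_level XD.card
      have h3 := f_step j x y XD.card (by omega) (by omega) hjm
      have h4 := hC.up M j _ _ (inter_ssub hs) hj h2
      have hq := q_pos j
      rw [hny]
      linarith

theorem prD_eq {X : Finset (ℕ ⊕ ℕ)} (hX : D.image Sum.inl ⊆ X) : prD D X = D := by
  unfold prD
  apply Finset.filter_true_of_mem
  intro x hx
  exact hX (Finset.mem_image_of_mem _ hx)

end

/-- Piece KZ. -/
theorem KZ : S_EMB → S_CALC → S_T2 → S_ALPHA → S_BETA → S_CROSS → S_KZ := by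
  intro hE hC hT hα hβ hX M Ω b0 h T U Q B A P W D σ τ lp hc S hS
  have hc1 : S.C1 ↑(ZZ U Q D τ) := hT.c1 hS.t2
  refine ⟨⟨hc1, fun X hPX => ?_⟩, hT.pcD hS.t2, fun X hPX hsub => ?_⟩
  · obtain ⟨hF, hdl, hcard⟩ := hX hc S hS X hPX
    rw [hdl]
    exact c2_aux hC hα hβ hc hF X.card hcard
  · obtain ⟨hF, hdl, hcard⟩ := hX hc S hS X hPX
    obtain ⟨a1, a2, a3⟩ := hα hc _ _ hF
    have hD : S.dl (D.image Sum.inl) = M.dl D := hE.dl hS.eD (Finset.Subset.refl _)
    have hns : ¬ prU U Q τ X ⊆ Q := by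
      intro hcon
      apply hsub.2
      intro z hz
      have hzZ : z ∈ ZZ U Q D τ := Finset.mem_coe.1 (hPX.sub (Finset.mem_coe.2 hz))
      rcases Finset.mem_union.1 hzZ with h1 | h1
      · exact h1
      · obtain ⟨u, hu, hue⟩ := Finset.mem_image.1 h1
        have huX : u ∈ prU U Q τ X := by
          unfold prU
          rw [Finset.mem_filter, hue]
          exact ⟨hu, hz⟩
        have huQ := hcon huX
        have h2 : z ∈ (Q.image τ).image (Sum.inl : ℕ → ℕ ⊕ ℕ) := by
          rw [← hue]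
          unfold gl
          rw [if_pos huQ]
          exact Finset.mem_image_of_mem _ (Finset.mem_image_of_mem _ huQ)
        rw [← hS.int] at h2
        exact (Finset.mem_inter.1 h2).1
    have h3 := a3 hns
    rw [hdl, hD]
    rw [prD_eq hsub.1] at a1 ⊢
    linarith

end Run7.h209.LW
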