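import Pool.Agent.Run7.h520.LW.I

/-!
# Piece T2: glued structures
-/

set_option autoImplicit false
set_option linter.all false

namespace Run7.h209.LW
open Classical Run7.h520.LW

variable {V : Type} [DecidableEq V] {S : Str V} {D U X : Finset V}

theorem T2.symm (h : Run7.h520.LW.T2 S D U) : Run7.h520.LW.T2 S U D where
  inc := by
    intro p hp l hl ho
    rw [Finset.union_comm] at hp hl
    exact (h.inc p hp l hl ho).symm
  d1 := h.u1
  u1 := h.d1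
  cD := by rw [Finset.inter_comm]; exact h.cU
  cU := by rw [Finset.inter_comm]; exact h.cD

theorem line_cases (h : Run7.h520.LW.T2 S D U) {p : V} {l : ℕ × List V} (hX : X ⊆ D ∪ U) (hp : p ∈ D ∪ U)
    (hl : l ∈ lin X) (ho : S.On p l) :
    (p ∈ D ∧ l ∈ lin (X ∩ D)) ∨ (p ∈ U ∧ l ∈ lin (X ∩ U)) := by
  rcases h.inc p hp l (lin_mono hX hl) ho with h1 | h1
  · left
    exact ⟨h1.1, by rw [lin_inter]; exact Finset.mem_inter.2 ⟨hl, h1.2⟩⟩
  · right
    exact ⟨h1.1, by rw [lin_inter]; exact Finset.mem_inter.2 ⟨hl, h1.2⟩⟩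

/-- points outside `D` -/
theorem nl_out (h : Run7.h520.LW.T2 S D U) {p : V} {j : ℕ} (hX : X ⊆ D ∪ U) (hp : p ∈ U) (hpD : p ∉ D) :
    S.nl j p X ≤ S.nl j p (X ∩ U) := by
  unfold Str.nl
  apply Finset.card_le_card
  intro l hl
  rw [Finset.mem_filter] at hl ⊢
  rcases line_cases h hX (Finset.mem_union_right _ hp) hl.1 hl.2.2 with h1 | h1
  · exact absurd h1.1 hpD
  · exact ⟨h1.2, hl.2⟩

/-- points in the intersection -/
theorem nl_mid (h : Run7.h520.LW.T2 S D U) {p : V} {j : ℕ} (hX : X ⊆ D ∪ U) (hp : p ∈ D) :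
    S.nl j p X + S.nl j p (D ∩ U) ≤ S.nl j p (X ∩ D) + S.nl j p ((D ∩ U) ∪ (X ∩ U)) := by
  unfold Str.nl
  have e1 := Finset.card_union_add_card_inter ((lin X).filter fun l => l.1 = j ∧ S.On p l)
    ((lin (D ∩ U)).filter fun l => l.1 = j ∧ S.On p l)
  have e2 := Finset.card_union_add_card_inter ((lin (X ∩ D)).filter fun l => l.1 = j ∧ S.On p l)
    ((lin ((D ∩ U) ∪ (X ∩ U))).filter fun l => l.1 = j ∧ S.On p l)
  have h1 : ((lin X).filter fun l => l.1 = j ∧ S.On p l) ∪ ((lin (D ∩ U)).filter fun l => l.1 = j ∧ S.On p l) ⊆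
      ((lin (X ∩ D)).filter fun l => l.1 = j ∧ S.On p l) ∪
        ((lin ((D ∩ U) ∪ (X ∩ U))).filter fun l => l.1 = j ∧ S.On p l) := by
    intro l hl
    rw [Finset.mem_union, Finset.mem_filter, Finset.mem_filter] at hl ⊢
    rcases hl with hl | hl
    · rcases line_cases h hX (Finset.mem_union_left _ hp) hl.1 hl.2.2 with h1 | h1
      · exact Or.inl ⟨h1.2, hl.2⟩
      · exact Or.inr ⟨lin_mono Finset.subset_union_right h1.2, hl.2⟩
    · exact Or.inr ⟨lin_mono Finset.subset_union_left hl.1, hl.2⟩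
  have h2 : ((lin X).filter fun l => l.1 = j ∧ S.On p l) ∩ ((lin (D ∩ U)).filter fun l => l.1 = j ∧ S.On p l) ⊆
      ((lin (X ∩ D)).filter fun l => l.1 = j ∧ S.On p l) ∩
        ((lin ((D ∩ U) ∪ (X ∩ U))).filter fun l => l.1 = j ∧ S.On p l) := by
    intro l hl
    rw [Finset.mem_inter, Finset.mem_filter, Finset.mem_filter] at hl ⊢
    refine ⟨⟨?_, hl.1.2⟩, lin_mono Finset.subset_union_left hl.2.1, hl.1.2⟩
    rw [lin_inter]
    exact Finset.mem_inter.2 ⟨hl.1.1, lin_mono Finset.inter_subset_left hl.2.1⟩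
  have h3 := Finset.card_le_card h1
  have h4 := Finset.card_le_card h2
  rw [← e1, ← e2]
  exact Nat.add_le_add h3 h4

theorem c1 (hC1R : S_C1R) (h : Run7.h520.LW.T2 S D U) : S.C1 ↑(D ∪ U) := by
  intro j S' Y hS' hY
  have hS : S' ⊆ D ∪ U := Finset.coe_subset.1 hS'
  have hYs : Y ⊆ D ∪ U := Finset.coe_subset.1 hY
  have h1 := h.d1 j (S' ∩ D) (Y ∩ D) (Finset.coe_subset.2 Finset.inter_subset_right)
    (Finset.coe_subset.2 Finset.inter_subset_right)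
  have hYU : Y \ D ⊆ U := by
    intro x hx
    rw [Finset.mem_sdiff] at hx
    exact (Finset.mem_union.1 (hYs hx.1)).resolve_left hx.2
  have h2 := hC1R (G := S) (Z := ↑U) (C := D ∩ U) j (S' ∩ U) (Y \ D) (Str.amb_finset h.u1) h.cU
    (Finset.coe_subset.2 Finset.inter_subset_right) (Finset.coe_subset.2 hYU)
    (by
      rw [Finset.disjoint_left]
      intro x hx hx'
      exact (Finset.mem_sdiff.1 hx).2 (Finset.mem_inter.1 hx').1)
  have hcard : (S' ∩ D).card + ((S' ∩ U) \ (D ∩ U)).card = S'.card := by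
    have e : (S' ∩ U) \ (D ∩ U) = S' \ D := by
      ext x
      simp only [Finset.mem_sdiff, Finset.mem_inter, not_and]
      constructor
      · rintro ⟨⟨a1, a2⟩, a3⟩
        exact ⟨a1, fun hd => a3 hd a2⟩
      · rintro ⟨a1, a2⟩
        exact ⟨⟨a1, (Finset.mem_union.1 (hS a1)).resolve_left a2⟩, fun hd => absurd hd a2⟩
    rw [e]
    exact Finset.card_inter_add_card_sdiff S' D
  have hsplit : ∑ p ∈ Y, (2 * (S.nl j p S' : ℤ) - 3) =
      ∑ p ∈ Y ∩ D, (2 * (S.nl j p S' : ℤ) - 3) + ∑ p ∈ Y \ D, (2 * (S.nl j p S' : ℤ) - 3) := by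
    rw [Finset.sum_inter_add_sum_sdiff]
  have hout : ∑ p ∈ Y \ D, (2 * (S.nl j p S' : ℤ) - 3) ≤
      ∑ p ∈ Y \ D, (2 * (S.nl j p ((D ∩ U) ∪ (S' ∩ U)) : ℤ) - 3) := by
    apply Finset.sum_le_sum
    intro p hp
    have a1 := nl_out h (j := j) hS (hYU hp) (Finset.mem_sdiff.1 hp).2
    have a2 : S.nl j p (S' ∩ U) ≤ S.nl j p ((D ∩ U) ∪ (S' ∩ U)) := Str.nl_mono Finset.subset_union_right
    have a3 : (S.nl j p S' : ℤ) ≤ S.nl j p ((D ∩ U) ∪ (S' ∩ U)) := by exact_mod_cast a1.trans a2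
    linarith
  have hin : ∑ p ∈ Y ∩ D, (2 * (S.nl j p S' : ℤ) - 3) ≤
      ∑ p ∈ Y ∩ D, ((2 * (S.nl j p (S' ∩ D) : ℤ) - 3) + (if p ∈ D ∩ U then
        2 * ((S.nl j p ((D ∩ U) ∪ (S' ∩ U)) : ℤ) - S.nl j p (D ∩ U)) else 0)) := by
    apply Finset.sum_le_sum
    intro p hp
    rw [Finset.mem_inter] at hp
    split_ifs with hpU
    · have a1 := nl_mid h (j := j) hS hp.2
      have a2 : (S.nl j p S' : ℤ) + S.nl j p (D ∩ U) ≤ S.nl j p (S' ∩ D) + S.nl j p ((D ∩ U) ∪ (S' ∩ U)) := by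
        exact_mod_cast a1
      linarith
    · have hpU' : p ∉ U := fun hu => hpU (Finset.mem_inter.2 ⟨hp.2, hu⟩)
      have hS2 : S' ⊆ U ∪ D := by rw [Finset.union_comm]; exact hS
      have a1 := nl_out (T2.symm h) (X := S') (j := j) hS2 hp.2 hpU'
      have a2 : (S.nl j p S' : ℤ) ≤ S.nl j p (S' ∩ D) := by exact_mod_cast a1
      linarith
  rw [Finset.sum_add_distrib] at hin
  have hQ : ∑ p ∈ Y ∩ D, (if p ∈ D ∩ U then
        2 * ((S.nl j p ((D ∩ U) ∪ (S' ∩ U)) : ℤ) - S.nl j p (D ∩ U)) else 0) ≤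
      ∑ p ∈ D ∩ U, 2 * ((S.nl j p ((D ∩ U) ∪ (S' ∩ U)) : ℤ) - S.nl j p (D ∩ U)) := by
    rw [← Finset.sum_filter]
    apply Finset.sum_le_sum_of_subset_of_nonneg
    · intro p hp
      exact (Finset.mem_filter.1 hp).2
    · intro p _ _
      have a2 : S.nl j p (D ∩ U) ≤ S.nl j p ((D ∩ U) ∪ (S' ∩ U)) := Str.nl_mono Finset.subset_union_left
      have a3 : (S.nl j p (D ∩ U) : ℤ) ≤ S.nl j p ((D ∩ U) ∪ (S' ∩ U)) := by exact_mod_cast a2
      linarith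
  have hc : ((S' ∩ D).card : ℤ) + ((S' ∩ U) \ (D ∩ U)).card = S'.card := by exact_mod_cast hcard
  rw [hsplit, ← hc]
  linarith

theorem pcD (h : Run7.h520.LW.T2 S D U) : S.PC D ↑(D ∪ U) where
  sub := Finset.coe_subset.2 Finset.subset_union_left
  g1 := by
    intro l hl hN
    by_contra hc
    push Not at hc
    have hc' : l ∉ lin D := by
      intro hlD
      obtain ⟨x, hx, hxD⟩ := hc
      exact hxD ((mem_lin.1 hlD).2.2 x hx)
    have hN0 := N_pos l.1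
    have hsub : ∀ p ∈ S.pts l D, p ∈ U ∧ l ∈ lin U := by
      intro p hp
      rw [Str.mem_pts] at hp
      rcases h.inc p (Finset.mem_union_left _ hp.1) l (hp.2.isLn fun x hx => Finset.mem_coe.1 (hl x hx)) hp.2 with h1 | h1
      · exact absurd h1.2 hc'
      · exact h1
    obtain ⟨p0, hp0⟩ := Finset.card_pos.1 (lt_of_lt_of_le hN0 hN)
    have hlU := (hsub p0 hp0).2
    have h2 : S.pts l D ⊆ S.pts l (D ∩ U) := by
      intro p hp
      have h3 := (hsub p hp).1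
      rw [Str.mem_pts] at hp ⊢
      exact ⟨Finset.mem_inter.2 ⟨hp.1, h3⟩, hp.2⟩
    obtain ⟨x, hx, hxD⟩ := hc
    exact hxD (Finset.mem_inter.1 (h.cU.1.g1 l (fun x hx => Finset.mem_coe.2 ((mem_lin.1 hlU).2.2 x hx))
      (hN.trans (Finset.card_le_card h2)) x hx)).1
  g2 := by
    intro p hp hpD j
    have hpU : p ∈ U := (Finset.mem_union.1 (Finset.mem_coe.1 hp)).resolve_left hpD
    exact (nl_out h (X := D) Finset.subset_union_left hpU hpD).trans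
      (h.cU.1.g2 p (Finset.mem_coe.2 hpU) (fun hx => hpD (Finset.mem_inter.1 hx).1) j)

theorem pcU (h : Run7.h520.LW.T2 S D U) : S.PC U ↑(D ∪ U) := by
  have := pcD (T2.symm h)
  rwa [Finset.union_comm] at this

theorem nic_empty (h : Run7.h520.LW.T2 S D U) (hX : X ⊆ D ∪ U) : S.nic (X ∩ D) (X ∩ U) = ∅ := by
  have e : X ∩ D ∪ X ∩ U = X := by
    rw [← Finset.inter_union_distrib_left]
    exact Finset.inter_eq_left.2 hX
  unfold Str.nic
  rw [Finset.filter_eq_empty_iff, e]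
  rintro ⟨p, l⟩ hp
  rw [Str.mem_ic] at hp
  simp only at hp
  rw [not_and_or, not_not, not_not, Str.mem_ic, Str.mem_ic]
  simp only
  rcases line_cases h hX (hX hp.1) hp.2.1 hp.2.2 with h1 | h1
  · left
    exact ⟨Finset.mem_inter.2 ⟨hp.1, h1.1⟩, h1.2, hp.2.2⟩
  · right
    exact ⟨Finset.mem_inter.2 ⟨hp.1, h1.1⟩, h1.2, hp.2.2⟩

theorem nfl_eq (h : Run7.h520.LW.T2 S D U) (hX : X ⊆ D ∪ U) : S.nfl (X ∩ D) (X ∩ U) =
    (S.ned (X ∩ D) (X ∩ U) ×ˢ lin (X ∩ (D ∩ U))).filter fun f => S.On f.1.1 f.2 ∧ S.On f.1.2 f.2 := by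
  have e : X ∩ D ∪ X ∩ U = X := by
    rw [← Finset.inter_union_distrib_left]
    exact Finset.inter_eq_left.2 hX
  have e2 : lin (X ∩ (D ∩ U)) = lin (X ∩ D) ∩ lin (X ∩ U) := by
    rw [← lin_inter]
    congr 1
    ext x
    simp only [Finset.mem_inter]
    tauto
  ext ⟨⟨x, y⟩, l⟩
  unfold Str.nfl Str.ned
  rw [e, e2]
  simp only [Finset.mem_filter, Finset.mem_product, Str.mem_fl, Str.mem_ed, Finset.mem_inter]
  constructor
  · rintro ⟨⟨⟨hx, hy, hR⟩, hl, ox, oy⟩, hA, hB⟩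
    have hcx := line_cases h hX (hX hx) hl ox
    have hcy := line_cases h hX (hX hy) hl oy
    have k1 : ¬ (x ∈ D ∧ y ∈ D ∧ l ∈ lin (X ∩ D)) := fun hc =>
      hA ⟨⟨⟨hx, hc.1⟩, ⟨hy, hc.2.1⟩, hR⟩, hc.2.2, ox, oy⟩
    have k2 : ¬ (x ∈ U ∧ y ∈ U ∧ l ∈ lin (X ∩ U)) := fun hc =>
      hB ⟨⟨⟨hx, hc.1⟩, ⟨hy, hc.2.1⟩, hR⟩, hc.2.2, ox, oy⟩
    have hxx := Finset.mem_union.1 (hX hx)
    have hyy := Finset.mem_union.1 (hX hy)
    have key : l ∈ lin (X ∩ D) ∧ l ∈ lin (X ∩ U) := by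
      rcases hcx with ⟨cx1, cx2⟩ | ⟨cx1, cx2⟩
      · rcases hcy with ⟨cy1, cy2⟩ | ⟨cy1, cy2⟩
        · exact absurd ⟨cx1, cy1, cx2⟩ k1
        · exact ⟨cx2, cy2⟩
      · rcases hcy with ⟨cy1, cy2⟩ | ⟨cy1, cy2⟩
        · exact ⟨cy2, cx2⟩
        · exact absurd ⟨cx1, cy1, cx2⟩ k2
    obtain ⟨t3, t4⟩ := key
    have t1 : ¬ (x ∈ D ∧ y ∈ D) := fun hc => k1 ⟨hc.1, hc.2, t3⟩
    have t2 : ¬ (x ∈ U ∧ y ∈ U) := fun hc => k2 ⟨hc.1, hc.2, t4⟩
    refine ⟨⟨⟨⟨hx, hy, hR⟩, fun hc => t1 ⟨hc.1.2, hc.2.1.2⟩, fun hc => t2 ⟨hc.1.2, hc.2.1.2⟩⟩, t3, t4⟩, ox, oy⟩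
  · rintro ⟨⟨⟨⟨hx, hy, hR⟩, hA, hB⟩, hl1, hl2⟩, ox, oy⟩
    exact ⟨⟨⟨hx, hy, hR⟩, lin_mono Finset.inter_subset_left hl1, ox, oy⟩, fun hc => hA hc.1, fun hc => hB hc.1⟩

theorem dl_eq (hC : S_CALC) (h : Run7.h520.LW.T2 S D U) (hX : X ⊆ D ∪ U) :
    S.dl X + ∑ e ∈ S.ned (X ∩ D) (X ∩ U), (w 0 - S.cm (X ∩ (D ∩ U)) e) =
      S.dl (X ∩ D) + S.dl (X ∩ U) - S.dl (X ∩ (D ∩ U)) := by
  have e : X ∩ D ∪ X ∩ U = X := by
    rw [← Finset.inter_union_distrib_left]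
    exact Finset.inter_eq_left.2 hX
  have e3 : X ∩ D ∩ (X ∩ U) = X ∩ (D ∩ U) := by
    ext x
    simp only [Finset.mem_inter]
    tauto
  have h1 := hC.incl S (X ∩ D) (X ∩ U)
  rw [e, e3, nic_empty h hX, nfl_eq h hX, Finset.sum_empty, add_zero] at h1
  have h2 : ∑ f ∈ (S.ned (X ∩ D) (X ∩ U) ×ˢ lin (X ∩ (D ∩ U))).filter (fun f => S.On f.1.1 f.2 ∧ S.On f.1.2 f.2),
      q (f.2.1 + 1) = ∑ e ∈ S.ned (X ∩ D) (X ∩ U), S.cm (X ∩ (D ∩ U)) e := by
    rw [Finset.sum_filter, Finset.sum_product]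
    apply Finset.sum_congr rfl
    intro e _
    unfold Str.cm
    rw [Finset.sum_filter]
  rw [h2] at h1
  rw [Finset.sum_sub_distrib, Finset.sum_const, nsmul_eq_mul]
  linarith

theorem ned_empty (h : Run7.h520.LW.T2 S D U) (hX : X ⊆ D ∪ U)
    (hf : ∀ x ∈ D, x ∉ U → ∀ y ∈ U, y ∉ D → ¬ S.R x y) : S.ned (X ∩ D) (X ∩ U) = ∅ := by
  have e : X ∩ D ∪ X ∩ U = X := by
    rw [← Finset.inter_union_distrib_left]
    exact Finset.inter_eq_left.2 hX
  unfold Str.ned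
  rw [Finset.filter_eq_empty_iff, e]
  rintro ⟨x, y⟩ hp
  rw [Str.mem_ed] at hp
  simp only at hp
  obtain ⟨hx, hy, hR⟩ := hp
  rw [not_and_or, not_not, not_not, Str.mem_ed, Str.mem_ed]
  simp only [Finset.mem_inter]
  have hxx := Finset.mem_union.1 (hX hx)
  have hyy := Finset.mem_union.1 (hX hy)
  by_cases h1 : x ∈ D
  · by_cases h2 : y ∈ D
    · left; exact ⟨⟨hx, h1⟩, ⟨hy, h2⟩, hR⟩
    · have h3 : y ∈ U := hyy.resolve_left h2
      by_cases h4 : x ∈ U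
      · right; exact ⟨⟨hx, h4⟩, ⟨hy, h3⟩, hR⟩
      · exact absurd hR (hf x h1 h4 y h3 h2)
  · have h3 : x ∈ U := hxx.resolve_left h1
    by_cases h4 : y ∈ U
    · right; exact ⟨⟨hx, h3⟩, ⟨hy, h4⟩, hR⟩
    · have h2 : y ∈ D := hyy.resolve_right h4
      exact absurd hR.symm (hf y h2 h4 x h3 h1)

theorem dl_free (hC : S_CALC) (h : Run7.h520.LW.T2 S D U) (hX : X ⊆ D ∪ U)
    (hf : ∀ x ∈ D, x ∉ U → ∀ y ∈ U, y ∉ D → ¬ S.R x y) :
    S.dl X = S.dl (X ∩ D) + S.dl (X ∩ U) - S.dl (X ∩ (D ∩ U)) := by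
  have h1 := dl_eq hC h hX
  rw [ned_empty h hX hf, Finset.sum_empty, add_zero] at h1
  exact h1

theorem cl_free (hC : S_CALC) (h : Run7.h520.LW.T2 S D U)
    (hf : ∀ x ∈ D, x ∉ U → ∀ y ∈ U, y ∉ D → ¬ S.R x y) : S.Cl D ↑(D ∪ U) := by
  refine ⟨pcD h, fun B hB hDB => ?_⟩
  have hBs : B ⊆ D ∪ U := Finset.coe_subset.1 hB.sub
  have h1 := dl_free hC h hBs hf
  have e1 : B ∩ D = D := Finset.inter_eq_right.2 hDB.1
  have e2 : B ∩ (D ∩ U) = D ∩ U := Finset.inter_eq_right.2 (Finset.inter_subset_left.trans hDB.1)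
  rw [e1, e2] at h1
  have h2 : S.PC (B ∩ U) ↑U := (hB.inter (pcU h)).mono (Finset.coe_subset.2 Finset.subset_union_right)
    (Finset.coe_subset.2 Finset.inter_subset_right)
  have h3 : D ∩ U ⊂ B ∩ U := by
    refine ⟨Finset.inter_subset_inter_right hDB.1, fun hc => hDB.2 fun x hx => ?_⟩
    by_contra hxD
    have hxU : x ∈ U := (Finset.mem_union.1 (hBs hx)).resolve_left hxD
    exact hxD (Finset.mem_inter.1 (hc (Finset.mem_inter.2 ⟨hx, hxU⟩))).1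
  have := h.cU.2 _ h2 h3
  linarith

/-- the part in `D` increases the predimension -/
theorem dl_gt (hO : S_CLO) (h : Run7.h520.LW.T2 S D U) (hX : S.PC X ↑(D ∪ U)) (hn : ¬ X ∩ D ⊆ U) :
    S.dl (X ∩ (D ∩ U)) < S.dl (X ∩ D) := by
  have hA := Str.amb_finset h.d1
  have h1 : S.PC (X ∩ D) ↑D := (hX.inter (pcD h)).mono (Finset.coe_subset.2 Finset.subset_union_left)
    (Finset.coe_subset.2 Finset.inter_subset_right)
  obtain ⟨H, hH⟩ := Str.exists_isP' (S := X ∩ D ∪ D ∩ U) hA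
    (Finset.coe_subset.2 (Finset.union_subset Finset.inter_subset_right Finset.inter_subset_left))
  have h2 := hO.union_le hA h1 h.cD.1 hH
  have e : X ∩ D ∩ (D ∩ U) = X ∩ (D ∩ U) := by
    ext x
    simp only [Finset.mem_inter]
    tauto
  rw [e] at h2
  have h3 : D ∩ U ⊂ H := by
    refine ⟨Finset.subset_union_right.trans hH.2.1, fun hc => hn fun x hx => ?_⟩
    exact (Finset.mem_inter.1 (hc (hH.2.1 (Finset.mem_union_left _ hx)))).2
  have := h.cD.2 H hH.1 h3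
  linarith

theorem half (hC : S_CALC) (hO : S_CLO) (h : Run7.h520.LW.T2 S D U)
    (hf : ∀ x ∈ D, x ∉ U → ∀ y ∈ U, y ∉ D → ¬ S.R x y) (hU : S.Cls ↑U) (hX : S.PC X ↑(D ∪ U))
    (hle : (X ∩ D).card ≤ (X ∩ U).card) : f X.card ≤ S.dl X := by
  have hXs : X ⊆ D ∪ U := Finset.coe_subset.1 hX.sub
  have h1 := dl_free hC h hXs hf
  have hPU : S.PC (X ∩ U) ↑U := (hX.inter (pcU h)).mono (Finset.coe_subset.2 Finset.subset_union_right)
    (Finset.coe_subset.2 Finset.inter_subset_right)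
  have h2 := hU.c2 _ hPU
  by_cases hn : X ∩ D ⊆ U
  · have e1 : X ∩ U = X := by
      apply Finset.inter_eq_left.2
      intro x hx
      rcases Finset.mem_union.1 (hXs hx) with h3 | h3
      · exact hn (Finset.mem_inter.2 ⟨hx, h3⟩)
      · exact h3
    rwa [e1] at h2
  · have h3 := dl_gt hO h hX hn
    have hcard : X.card = (X ∩ U).card + (X \ U).card := (Finset.card_inter_add_card_sdiff X U).symm
    have hyz : (X \ U).card ≤ (X ∩ D).card := by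
      apply Finset.card_le_card
      intro x hx
      rw [Finset.mem_sdiff] at hx
      exact Finset.mem_inter.2 ⟨hx.1, (Finset.mem_union.1 (hXs hx.1)).resolve_right hx.2⟩
    have hex : ∃ j, (X ∩ D).card < g j := ⟨_, g_lt _⟩
    obtain ⟨j, hj, hjm⟩ : ∃ j, (X ∩ D).card < g j ∧ (j = 0 ∨ g (j - 1) ≤ (X ∩ D).card) := by
      refine ⟨Nat.find hex, Nat.find_spec hex, ?_⟩
      rcases Nat.eq_zero_or_pos (Nat.find hex) with h0 | h0
      · exact Or.inl h0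
      · right
        have := Nat.find_min hex (m := Nat.find hex - 1) (by omega)
        omega
    have h4 := f_step j (X ∩ U).card (X \ U).card (X ∩ D).card hyz hle hjm
    have h5 : X ∩ (D ∩ U) ⊂ X ∩ D := by
      refine ⟨Finset.inter_subset_inter_left Finset.inter_subset_left, fun hc => hn fun x hx => ?_⟩
      exact (Finset.mem_inter.1 (Finset.mem_inter.1 (hc hx)).2).2
    have h6 := hC.up S j _ _ h5 hj h3
    have hq := q_pos j
    rw [hcard]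
    linarith

theorem cls_free (hC : S_CALC) (hO : S_CLO) (hC1R : S_C1R) (h : Run7.h520.LW.T2 S D U)
    (hf : ∀ x ∈ D, x ∉ U → ∀ y ∈ U, y ∉ D → ¬ S.R x y) (hD : S.Cls ↑D) (hU : S.Cls ↑U) :
    S.Cls ↑(D ∪ U) where
  c1 := c1 hC1R h
  c2 := by
    intro X hX
    rcases le_total (X ∩ D).card (X ∩ U).card with hle | hle
    · exact half hC hO h hf hU hX hle
    · have hf' : ∀ x ∈ U, x ∉ D → ∀ y ∈ D, y ∉ U → ¬ S.R x y :=
        fun x hx hxD y hy hyU hR => hf y hy hyU x hx hxD hR.symm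
      rw [Finset.union_comm] at hX
      exact half hC hO (T2.symm h) hf' hD hX hle

/-- Piece T2. -/
theorem T2 : S_CALC → S_SMK → S_CLO → S_C1R → S_T2 := by
  intro hC _ hO hR
  exact
    { c1 := fun h => c1 hR h
      pcD := fun h => pcD h
      pcU := fun h => pcU h
      dl := fun h hX => dl_eq hC h hX
      free := by
        intro V _ S D U h hf hD hU
        refine ⟨cls_free hC hO hR h hf hD hU, cl_free hC h hf, ?_⟩
        have hf' : ∀ x ∈ U, x ∉ D → ∀ y ∈ D, y ∉ U → ¬ S.R x y :=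
          fun x hx hxD y hy hyU hR => hf y hy hyU x hx hxD hR.symm
        have := cl_free hC (T2.symm h) hf'
        rwa [Finset.union_comm] at this }

end Run7.h209.LW
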